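import Mathlib

set_option autoImplicit false

namespace Pool.Agent.P.MP_ae6ac5_an

/-- the ordered product of `1 - X * Z ^ j`, `j < k` -/
def F {R : Type} [Ring R] (X Z : R) : ℕ → R
  | 0 => 1
  | k + 1 => F X Z k * (1 - X * Z ^ k)

lemma map_F {R S : Type} [Ring R] [Ring S] (φ : R →+* S) (X Z : R) (k : ℕ) :
    φ (F X Z k) = F (φ X) (φ Z) k := by
  induction k with
  | zero => simp [F]
  | succ k ih => simp [F, ih]

lemma F_eq_prod {R : Type} [CommRing R] (X Z : R) (k : ℕ) :
    F X Z k = ∏ j ∈ Finset.range k, (1 - X * Z ^ j) := by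
  induction k with
  | zero => simp [F]
  | succ k ih => simp [F, ih, Finset.prod_range_succ]

lemma prod_eq_of_pow {R : Type} [CommRing R] (i : ℕ) (X Z : R) (h : Z ^ (2 ^ i) = -1) :
    ∏ j ∈ Finset.range (2 ^ (i + 1)), (1 - X * Z ^ j) = 1 - X ^ (2 ^ (i + 1)) := by
  induction i generalizing X Z with
  | zero =>
    simp only [pow_zero, pow_one] at h
    subst h
    simp [Finset.prod_range_succ]
    ring
  | succ i ih =>
    have e : 2 ^ (i + 1 + 1) = 2 ^ (i + 1) + 2 ^ (i + 1) := by ring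
    have h2 : (Z ^ 2) ^ (2 ^ i) = -1 := by
      rw [← pow_mul, ← h]; congr 1; ring
    have := ih (X ^ 2) (Z ^ 2) h2
    rw [e, Finset.prod_range_add, ← Finset.prod_mul_distrib]
    have e2 : X ^ (2 ^ (i + 1) + 2 ^ (i + 1)) = (X ^ 2) ^ (2 ^ (i + 1)) := by ring
    rw [e2, ← this]
    refine Finset.prod_congr rfl fun j _ => ?_
    rw [pow_add, h]
    ring

lemma F_comm {R : Type} [CommRing R] (i : ℕ) (X Z : R) :
    ∃ q : R, F X Z (2 ^ (i + 1)) = 1 - X ^ (2 ^ (i + 1)) + (1 + Z ^ (2 ^ i)) * q := by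
  let I : Ideal R := Ideal.span {1 + Z ^ (2 ^ i)}
  let φ := Ideal.Quotient.mk I
  have h : (φ Z) ^ (2 ^ i) = -1 := by
    rw [← map_pow, eq_neg_iff_add_eq_zero, add_comm, ← map_one φ, ← map_add,
      Ideal.Quotient.eq_zero_iff_mem]
    exact Ideal.mem_span_singleton_self _
  have h2 := prod_eq_of_pow i (φ X) (φ Z) h
  rw [← F_eq_prod, ← map_F, ← map_pow, ← map_one φ, ← map_sub, Ideal.Quotient.eq,
    Ideal.mem_span_singleton] at h2
  obtain ⟨q, hq⟩ := h2
  exact ⟨q, by rw [← hq]; ring⟩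

open scoped IsMulCommutative in
lemma F_nc {R : Type} [Ring R] (i : ℕ) (X Z : R) (h : Commute X Z) :
    ∃ q : R, F X Z (2 ^ (i + 1)) = 1 - X ^ (2 ^ (i + 1)) + (1 + Z ^ (2 ^ i)) * q := by
  let S : Subring R := Subring.closure {X, Z}
  have hS : IsMulCommutative S := by
    apply Subring.isMulCommutative_closure
    rintro a (rfl | rfl) b (rfl | rfl)
    · rfl
    · exact h.eq
    · exact h.eq.symm
    · rfl
  let _ : CommRing S := inferInstance
  have hX : X ∈ S := Subring.subset_closure (by simp)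
  have hZ : Z ∈ S := Subring.subset_closure (by simp)
  obtain ⟨q, hq⟩ := F_comm (R := S) i ⟨X, hX⟩ ⟨Z, hZ⟩
  refine ⟨q, ?_⟩
  have := congrArg S.subtype hq
  rw [map_F] at this
  simpa using this

lemma pow_B {R : Type} [Ring R] {X Y Z : R} (hYX : Y * X = X * Z * Y) (hZY : Commute Z Y)
    (k : ℕ) : ((1 - X) * Y) ^ k = F X Z k * Y ^ k := by
  have h1 : ∀ k : ℕ, Y ^ k * X = X * Z ^ k * Y ^ k := by
    intro k
    induction k with
    | zero => simp
    | succ k ih =>
      calc Y ^ (k + 1) * X = Y ^ k * (Y * X) := by rw [pow_succ, mul_assoc]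
        _ = (Y ^ k * X) * Z * Y := by rw [hYX]; simp only [mul_assoc]
        _ = X * Z ^ k * (Y ^ k * Z) * Y := by rw [ih]; simp only [mul_assoc]
        _ = X * Z ^ k * (Z * Y ^ k) * Y := by rw [(hZY.pow_right k).eq]
        _ = X * Z ^ (k + 1) * Y ^ (k + 1) := by simp only [pow_succ, mul_assoc]
  induction k with
  | zero => simp [F]
  | succ k ih =>
    rw [pow_succ, ih, F]
    calc F X Z k * Y ^ k * ((1 - X) * Y) = F X Z k * (Y ^ k - Y ^ k * X) * Y := by
          simp only [mul_assoc, mul_sub, sub_mul, one_mul]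
      _ = F X Z k * (1 - X * Z ^ k) * Y ^ (k + 1) := by
          rw [h1 k]; simp only [mul_assoc, mul_sub, sub_mul, mul_one, pow_succ]

lemma add_pow_orth {R : Type} [Ring R] {a b : R} (h1 : a * b = 0) (h2 : b * a = 0) (k : ℕ) :
    (a + b) ^ (k + 1) = a ^ (k + 1) + b ^ (k + 1) := by
  induction k with
  | zero => simp
  | succ k ih =>
    rw [pow_succ, ih, add_mul, mul_add, mul_add]
    have e1 : a ^ (k + 1) * b = 0 := by rw [pow_succ, mul_assoc, h1, mul_zero]
    have e2 : b ^ (k + 1) * a = 0 := by rw [pow_succ, mul_assoc, h2, mul_zero]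
    rw [e1, e2, ← pow_succ, ← pow_succ]; simp

lemma idem_pow {R : Type} [Ring R] {P : R} (h : P * P = P) (k : ℕ) : P ^ (k + 1) = P := by
  induction k with
  | zero => simp
  | succ k ih => rw [pow_succ, ih, h]

lemma split_proj {R : Type} [Ring R] {B P : R} (h : P * P = P) (hc : P * B = B * P) :
    1 - B = (1 - B * (1 - P)) * (1 - B * P) := by
  have h1 : P * (B * P) = B * P := by rw [← mul_assoc, hc, mul_assoc, h]
  simp only [mul_sub, sub_mul, mul_one, one_mul, mul_assoc, h1]
  abel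

lemma pow_proj {R : Type} [Ring R] {S P : R} (h : P * P = P) (hc : P * S = S * P) (k : ℕ) :
    (S * P + (1 - P)) ^ k = S ^ k * P + (1 - P) := by
  induction k with
  | zero => simp
  | succ k ih =>
    have h1 : P * (S * P) = S * P := by rw [← mul_assoc, hc, mul_assoc, h]
    rw [pow_succ, ih, pow_succ]
    simp only [mul_sub, sub_mul, mul_add, add_mul, mul_one, one_mul, mul_assoc, h1, h]
    abel

lemma mul_proj {R : Type} [Ring R] {B B' P : R} (h : P * P = P)
    (hc' : P * B' = B' * P) :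
    (1 - B * P) * (1 - P * B') = (1 - B) * (1 - B') * P + (1 - P) := by
  have h1 : P * (B' * P) = B' * P := by rw [← mul_assoc, hc', mul_assoc, h]
  simp only [mul_sub, sub_mul, mul_one, one_mul, mul_assoc, hc', h1]
  abel

end Pool.Agent.P.MP_ae6ac5_an
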