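import Pool.Agent.P.MP_ae6ac5_an.Mat
import Pool.Agent.P.MP_ae6ac5_an.Alg

set_option autoImplicit false

open Matrix

namespace Pool.Agent.P.MP_ae6ac5_an

section bdd
variable {D : Type} [Fintype D] [DecidableEq D]

/-- bound for a matrix and its transpose -/
def Bdd2 (M : Matrix D D ℝ) (c : ℝ) : Prop := 0 ≤ c ∧ Bdd M c ∧ Bdd Mᵀ c

omit [DecidableEq D] in
lemma Bdd2.add {M N : Matrix D D ℝ} {a b : ℝ} (h : Bdd2 M a) (h' : Bdd2 N b) :
    Bdd2 (M + N) (a + b) :=
  ⟨add_nonneg h.1 h'.1, h.2.1.add h'.2.1, by rw [transpose_add]; exact h.2.2.add h'.2.2⟩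

omit [DecidableEq D] in
lemma Bdd2.sub {M N : Matrix D D ℝ} {a b : ℝ} (h : Bdd2 M a) (h' : Bdd2 N b) :
    Bdd2 (M - N) (a + b) :=
  ⟨add_nonneg h.1 h'.1, h.2.1.sub h'.2.1, by rw [transpose_sub]; exact h.2.2.sub h'.2.2⟩

omit [DecidableEq D] in
lemma Bdd2.mul {M N : Matrix D D ℝ} {a b : ℝ} (h : Bdd2 M a) (h' : Bdd2 N b) :
    Bdd2 (M * N) (a * b) :=
  ⟨mul_nonneg h.1 h'.1, h.2.1.mul h.1 h'.2.1, by
    rw [transpose_mul, mul_comm a b]; exact h'.2.2.mul h'.1 h.2.2⟩

omit [DecidableEq D] in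
lemma Bdd2.smul {M : Matrix D D ℝ} {a : ℝ} (s : ℝ) (hs : 0 ≤ s) (h : Bdd2 M a) :
    Bdd2 (s • M) (s * a) :=
  ⟨mul_nonneg hs h.1, h.2.1.smul s hs, by rw [transpose_smul]; exact h.2.2.smul s hs⟩

lemma Bdd2.one : Bdd2 (1 : Matrix D D ℝ) 1 :=
  ⟨zero_le_one, Bdd.one, by rw [transpose_one]; exact Bdd.one⟩

omit [DecidableEq D] in
lemma Bdd2.mono {M : Matrix D D ℝ} {a b : ℝ} (h : Bdd2 M a) (hab : a ≤ b) : Bdd2 M b :=
  ⟨h.1.trans hab, h.2.1.mono hab, h.2.2.mono hab⟩

lemma Bdd2.eigen_mem {M : Matrix D D ℝ} {c : ℝ} (h : Bdd2 M c) (j : D) :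
    (herm_mul_transpose M).eigenvalues j ∈ Set.Icc 0 (c * c) :=
  ⟨eigen_nonneg M j, (h.2.1.mul h.1 h.2.2).eigen_le _ j⟩

end bdd

variable {Q : Type} [Group Q] [Fintype Q] [DecidableEq Q]

/-- right regular representation by permutation matrices -/
def reg (R : Type) [CommRing R] : Q →* Matrix Q Q R where
  toFun q := Matrix.of fun u v => if u * q = v then 1 else 0
  map_one' := by
    ext u v; simp [Matrix.one_apply]
  map_mul' q q' := by
    ext u w
    simp only [Matrix.mul_apply, Matrix.of_apply, ite_mul, one_mul, zero_mul,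
      Finset.sum_ite_eq, Finset.mem_univ, if_true, mul_assoc]

lemma reg_apply (R : Type) [CommRing R] (q u v : Q) :
    reg R q u v = if u * q = v then 1 else 0 := rfl

lemma reg_inv (R : Type) [CommRing R] (q : Q) : reg R q⁻¹ = (reg R q)ᵀ := by
  ext u v
  simp only [reg_apply, transpose_apply, mul_inv_eq_iff_eq_mul, eq_comm (a := u)]

lemma trace_reg (q : Q) :
    (reg ℝ q).trace = if q = 1 then (Fintype.card Q : ℝ) else 0 := by
  simp only [Matrix.trace, diag_apply, reg_apply, mul_eq_left]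
  split_ifs <;> simp

lemma reg_bdd (q : Q) : Bdd (reg ℝ q) 1 := by
  intro v
  rw [one_mul, pi_norm_le_iff_of_nonneg (norm_nonneg _)]
  intro u
  have : (reg ℝ q *ᵥ v) u = v (u * q) := by
    simp [mulVec, dotProduct, reg_apply]
  rw [this]
  exact norm_le_pi_norm v _

lemma reg_bdd2 (q : Q) : Bdd2 (reg ℝ q) 1 :=
  ⟨zero_le_one, reg_bdd q, by rw [← reg_inv]; exact reg_bdd _⟩

lemma map_reg {R S : Type} [CommRing R] [CommRing S] (f : R →+* S) (q : Q) :
    f.mapMatrix (reg R q) = reg S q := by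
  ext u v
  simp only [RingHom.mapMatrix_apply, Matrix.map_apply, reg_apply]
  split_ifs <;> simp

/-- the matrix `12 (1 - x) y` -/
noncomputable def BB (x y : Q) : Matrix Q Q ℝ := (12 : ℝ) • ((1 - reg ℝ x) * reg ℝ y)

lemma BB_bdd (x y : Q) : Bdd2 (BB x y) 24 := by
  have := ((Bdd2.one.sub (reg_bdd2 x)).mul (reg_bdd2 y)).smul 12 (by norm_num)
  exact this.mono (by norm_num)

lemma det_ne_zero (x y : Q) : (1 - BB x y).det ≠ 0 := by
  let MZ : Matrix Q Q ℤ := 1 - 12 * ((1 - reg ℤ x) * reg ℤ y)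
  have h1 : (Int.castRingHom ℝ).mapMatrix MZ = 1 - BB x y := by
    simp only [MZ, map_sub, map_mul, map_one, map_reg, map_ofNat, BB]
    congr 1
    rw [← Matrix.smul_mul, ← Matrix.mul_assoc]
    congr 1
    ext u v
    simp [Matrix.ofNat_apply, Matrix.mul_apply]
  have h2 : (Int.castRingHom (ZMod 2)).mapMatrix MZ = 1 := by
    simp only [MZ, map_sub, map_mul, map_one, map_reg, map_ofNat]
    have : (12 : Matrix Q Q (ZMod 2)) = 0 := by
      ext u v
      simp only [Matrix.ofNat_apply, Matrix.zero_apply]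
      split_ifs
      · rfl
      · rfl
    rw [this, zero_mul, sub_zero]
  intro h
  rw [← h1, ← RingHom.map_det] at h
  have h3 : MZ.det = 0 := by
    simpa using h
  have h4 := RingHom.map_det (Int.castRingHom (ZMod 2)) MZ
  rw [h2, h3] at h4
  simp at h4

lemma BB_pow {x y z : Q} (hyx : y * x = x * z * y) (hzy : z * y = y * z) (k : ℕ) :
    BB x y ^ k = (12 : ℝ) ^ k • (F (reg ℝ x) (reg ℝ z) k * reg ℝ (y ^ k)) := by
  rw [BB, smul_pow, pow_B (Z := reg ℝ z), map_pow]
  · rw [← map_mul, hyx, map_mul, map_mul]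
  · rw [Commute, SemiconjBy, ← map_mul, hzy, map_mul]

lemma comm_BB {x y c : Q} (hx : c * x = x * c) (hy : c * y = y * c) :
    Commute (reg ℝ c) (BB x y) := by
  have h1 : Commute (reg ℝ c) (reg ℝ x) := by
    rw [Commute, SemiconjBy, ← map_mul, hx, map_mul]
  have h2 : Commute (reg ℝ c) (reg ℝ y) := by
    rw [Commute, SemiconjBy, ← map_mul, hy, map_mul]
  exact (((Commute.one_right _).sub_right h1).mul_right h2).smul_right _

lemma reg_symm {c : Q} (hc : c * c = 1) : (reg ℝ c)ᵀ = reg ℝ c := by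
  rw [← reg_inv, inv_eq_of_mul_eq_one_right hc]

lemma isHerm_of_transpose {D : Type} {P : Matrix D D ℝ} (h : Pᵀ = P) : P.IsHermitian := by
  rw [IsHermitian, conjTranspose_eq_transpose_of_trivial, h]

theorem bad_bound {x y z : Q} (i : ℕ) (hyx : y * x = x * z * y) (hzy : z * y = y * z)
    (hzx : z * x = x * z) (hx : x ^ (2 ^ (i + 1)) = 1) (hz : z ^ (2 ^ (i + 1)) = 1)
    (hc : z ^ (2 ^ i) ≠ 1) :
    Real.log |(1 - BB x y).det| ≤ Fintype.card Q * Real.log 10 := by
  set c := z ^ (2 ^ i) with hcdef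
  have hcc : c * c = 1 := by
    rw [hcdef, ← pow_add, ← hz]; congr 1; ring
  set C := reg ℝ c with hC
  have hCC : C * C = 1 := by rw [hC, ← map_mul, hcc, map_one]
  set B := BB x y with hB
  have hCB : Commute C B :=
    comm_BB ((Commute.pow_left hzx _).eq) ((Commute.pow_left hzy _).eq)
  set P : Matrix Q Q ℝ := (1 / 2 : ℝ) • (1 + C) with hP
  have hPm : 1 - P = (1 / 2 : ℝ) • (1 - C) := by rw [hP]; module
  have hPP : P * P = P := by
    rw [hP]
    simp only [Matrix.smul_mul, Matrix.mul_smul, Matrix.mul_add, Matrix.add_mul, hCC,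
      Matrix.mul_one, Matrix.one_mul]
    module
  have hPB : Commute P B := ((Commute.one_left _).add_left hCB).smul_left _
  have hPt : Pᵀ = P := by
    rw [hP, transpose_smul, transpose_add, transpose_one, hC, reg_symm hcc]
  have htr : P.trace = Fintype.card Q / 2 := by
    rw [hP, trace_smul, trace_add, trace_one, hC, trace_reg, if_neg hc]
    simp; ring
  -- nilpotent half
  have hnil : (B * (1 - P)) ^ (2 ^ (i + 1)) = 0 := by
    have hcm : Commute (1 - P) B := (Commute.one_left _).sub_left hPB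
    have hid : (1 - P) * (1 - P) = 1 - P := by
      simp only [Matrix.mul_sub, Matrix.sub_mul, hPP, Matrix.mul_one, Matrix.one_mul]
      abel
    obtain ⟨k, hk⟩ : ∃ k, 2 ^ (i + 1) = k + 1 := ⟨2 ^ (i + 1) - 1, by
      have : 0 < 2 ^ (i + 1) := by positivity
      omega⟩
    rw [hcm.symm.mul_pow]
    have : (1 - P) ^ (2 ^ (i + 1)) = 1 - P := by rw [hk]; exact idem_pow hid k
    rw [this, ← (hcm.pow_right _).eq, hB, BB_pow hyx hzy]
    have hXZ : Commute (reg ℝ x) (reg ℝ z) := by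
      rw [Commute, SemiconjBy, ← map_mul, ← hzx, map_mul]
    obtain ⟨q, hq⟩ := F_nc i (reg ℝ x) (reg ℝ z) hXZ
    rw [hq, ← map_pow, hx, map_one, sub_self, zero_add, ← map_pow, ← hcdef, ← hC, hPm]
    have : (1 - C) * (1 + C) = 0 := by
      simp only [Matrix.mul_add, Matrix.sub_mul, hCC, Matrix.mul_one, Matrix.one_mul]
      abel
    simp only [Matrix.smul_mul, Matrix.mul_smul, ← Matrix.mul_assoc, this, Matrix.zero_mul,
      smul_zero]
  have hsplit : 1 - B = (1 - B * (1 - P)) * (1 - B * P) := split_proj hPP hPB.eq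
  have hdet : (1 - B).det = (1 - B * P).det := by
    rw [hsplit, det_mul, det_one_sub_nilp hnil, one_mul]
  obtain ⟨hT0, hT⟩ := log_det_proj (isHerm_of_transpose hPt) hPP (s := 25) (by norm_num)
  have hm : (P + (25 : ℝ) • (1 - P)) * (1 - B * P) = (1 - B) * P + (25 : ℝ) • (1 - P) := by
    have h1 : P * (B * P) = B * P := by rw [← mul_assoc, hPB.eq, mul_assoc, hPP]
    simp only [Matrix.mul_sub, Matrix.sub_mul, Matrix.add_mul, Matrix.smul_mul, h1,
      Matrix.mul_one, Matrix.one_mul]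
    module
  have hCb : Bdd2 C 1 := reg_bdd2 c
  have hPb : Bdd2 P 1 := ((Bdd2.one.add hCb).smul (1 / 2) (by norm_num)).mono (by norm_num)
  have hPmb : Bdd2 (1 - P) 1 := by
    rw [hPm]
    exact ((Bdd2.one.sub hCb).smul (1 / 2) (by norm_num)).mono (by norm_num)
  have hmb : Bdd2 ((1 - B) * P + (25 : ℝ) • (1 - P)) 50 :=
    (((Bdd2.one.sub (BB_bdd x y)).mul hPb).add (hPmb.smul 25 (by norm_num))).mono (by norm_num)
  have hd0 : (1 - B * P).det ≠ 0 := by rw [← hdet]; exact det_ne_zero x y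
  have hle := log_det_le (by norm_num) hmb.2.1 hmb.2.2
    (by rw [← hm, det_mul]; exact mul_ne_zero hT0 hd0)
  rw [← hm, det_mul, abs_mul, Real.log_mul (abs_ne_zero.mpr hT0) (abs_ne_zero.mpr hd0), hT,
    htr] at hle
  rw [hdet]
  have e1 : Real.log 50 = Real.log 10 + Real.log 5 := by
    rw [← Real.log_mul (by norm_num) (by norm_num)]; norm_num
  have e2 : Real.log |(25 : ℝ)| = 2 * Real.log 5 := by
    rw [abs_of_pos (by norm_num), show (25 : ℝ) = 5 ^ 2 by norm_num, Real.log_pow]; norm_num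
  rw [e1, e2] at hle
  linarith

/-- the projection used for the lower bound -/
noncomputable def PP (c e : Q) : Matrix Q Q ℝ := (1 / 4 : ℝ) • ((1 - reg ℝ c) * (1 - reg ℝ e))

lemma PP_bdd (c e : Q) : Bdd2 (PP c e) 1 :=
  (((Bdd2.one.sub (reg_bdd2 c)).mul (Bdd2.one.sub (reg_bdd2 e))).smul (1 / 4)
    (by norm_num)).mono (by norm_num)

theorem good_bound {x y z : Q} (i : ℕ) (hyx : y * x = x * z * y) (hzy : z * y = y * z)
    (hzx : z * x = x * z) (hx : x ^ (2 ^ (i + 1)) * x ^ (2 ^ (i + 1)) = 1)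
    (hy : y ^ (2 ^ (i + 1)) = 1) (hz : z ^ (2 ^ (i + 1)) = 1)
    (hey : x ^ (2 ^ (i + 1)) * y = y * x ^ (2 ^ (i + 1)))
    (hc : z ^ (2 ^ i) ≠ 1) (he : x ^ (2 ^ (i + 1)) ≠ 1)
    (hce : z ^ (2 ^ i) * x ^ (2 ^ (i + 1)) ≠ 1) :
    (1 - BB x y * PP (z ^ (2 ^ i)) (x ^ (2 ^ (i + 1)))).det ≠ 0 ∧
    Fintype.card Q / 4 * Real.log 11 ≤
      Real.log |(1 - BB x y * PP (z ^ (2 ^ i)) (x ^ (2 ^ (i + 1)))).det| ∧
    ∀ k : ℕ, ((1 - BB x y * PP (z ^ (2 ^ i)) (x ^ (2 ^ (i + 1)))) *
      (1 - BB x y * PP (z ^ (2 ^ i)) (x ^ (2 ^ (i + 1))))ᵀ) ^ k =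
      ((1 - BB x y) * (1 - BB x y)ᵀ) ^ k * PP (z ^ (2 ^ i)) (x ^ (2 ^ (i + 1))) +
        (1 - PP (z ^ (2 ^ i)) (x ^ (2 ^ (i + 1)))) := by
  set d := 2 ^ (i + 1) with hd
  set c := z ^ (2 ^ i) with hcdef
  set e := x ^ d with hedef
  have hcc : c * c = 1 := by
    rw [hcdef, ← pow_add, ← hz]; congr 1; rw [hd]; ring
  set C := reg ℝ c with hC
  set E := reg ℝ e with hE
  have hCC : C * C = 1 := by rw [hC, ← map_mul, hcc, map_one]
  have hEE : E * E = 1 := by rw [hE, ← map_mul, hx, map_one]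
  have hce' : c * e = e * c := ((Commute.pow_left hzx _).pow_right _).eq
  have hCE : Commute C E := by
    rw [Commute, SemiconjBy, hC, hE, ← map_mul, hce', map_mul]
  set B := BB x y with hB
  have hCB : Commute C B :=
    comm_BB ((Commute.pow_left hzx _).eq) ((Commute.pow_left hzy _).eq)
  have hEB : Commute E B := comm_BB ((Commute.refl x).pow_left _).eq hey
  set P : Matrix Q Q ℝ := PP c e with hP
  have hPdef : P = (1 / 4 : ℝ) • ((1 - C) * (1 - E)) := rfl
  have hPC : P * (1 + C) = 0 := by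
    have h1 : E * C = C * E := hCE.eq.symm
    have h2 : C * (C * E) = E := by rw [← mul_assoc, hCC, one_mul]
    rw [hPdef]
    simp only [Matrix.smul_mul, Matrix.mul_add, Matrix.mul_sub, Matrix.sub_mul, hCC,
      Matrix.mul_one, Matrix.one_mul, Matrix.mul_assoc, h1, h2]
    module
  have hPE : P * (1 - E) = (2 : ℝ) • P := by
    rw [hPdef]
    simp only [Matrix.smul_mul, Matrix.mul_sub, Matrix.sub_mul, hEE,
      Matrix.mul_one, Matrix.one_mul, Matrix.mul_assoc]
    module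
  have hPP : P * P = P := by
    have h1 : P * (1 - C) = (2 : ℝ) • P := by
      have : P * (1 - C) = (2 : ℝ) • P - P * (1 + C) := by
        simp only [Matrix.mul_add, Matrix.mul_sub, Matrix.mul_one]; module
      rw [this, hPC, sub_zero]
    calc P * P = (1 / 4 : ℝ) • (P * (1 - C) * (1 - E)) := by
          conv_lhs => rhs; rw [hPdef]
          rw [Matrix.mul_smul, Matrix.mul_assoc]
      _ = P := by rw [h1, Matrix.smul_mul, hPE]; module
  have hPB : Commute P B :=
    (((Commute.one_left _).sub_left hCB).mul_left ((Commute.one_left _).sub_left hEB)).smul_left _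
  have hPt : Pᵀ = P := by
    have : Commute (1 - C) (1 - E) :=
      (Commute.one_left _).sub_left ((Commute.one_right _).sub_right hCE)
    rw [hPdef, transpose_smul, transpose_mul, transpose_sub, transpose_sub, transpose_one,
      hC, hE, reg_symm hcc, reg_symm hx, ← hC, ← hE, this.eq]
  have htr : P.trace = Fintype.card Q / 4 := by
    rw [hPdef]
    simp only [Matrix.mul_sub, Matrix.sub_mul, Matrix.mul_one, Matrix.one_mul]
    rw [trace_smul, trace_sub, trace_sub, trace_sub, trace_one, hC, hE, ← map_mul, trace_reg,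
      trace_reg, trace_reg, if_neg hc, if_neg he, if_neg hce]
    simp; ring
  obtain ⟨k, hk⟩ : ∃ k, d = k + 1 := ⟨d - 1, by
      have : 0 < d := by positivity
      omega⟩
  have hd0 : d ≠ 0 := by omega
  have hBP : (B * P) ^ d = (2 * (12 : ℝ) ^ d) • P := by
    rw [hPB.symm.mul_pow]
    have : P ^ d = P := by rw [hk]; exact idem_pow hPP k
    rw [this, ← (hPB.pow_right _).eq, hB, BB_pow hyx hzy, hy, map_one, Matrix.mul_one]
    have hXZ : Commute (reg ℝ x) (reg ℝ z) := by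
      rw [Commute, SemiconjBy, ← map_mul, ← hzx, map_mul]
    obtain ⟨q, hq⟩ := F_nc i (reg ℝ x) (reg ℝ z) hXZ
    rw [← hd] at hq
    rw [hq, ← map_pow, ← map_pow, ← hcdef, ← hedef, ← hC, ← hE, Matrix.mul_smul, Matrix.mul_add,
      ← Matrix.mul_assoc, hPC, hPE, Matrix.zero_mul, add_zero, smul_smul, mul_comm]
  set t : ℝ := (2 * (12 : ℝ) ^ d) ^ ((d : ℝ)⁻¹) with ht
  have htd : t ^ d = 2 * (12 : ℝ) ^ d := Real.rpow_inv_natCast_pow (by positivity) hd0
  have ht0 : 0 ≤ t := by positivity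
  have ht12 : 12 ≤ t := by
    apply le_of_pow_le_pow_left₀ hd0 ht0
    rw [htd]
    have : (0 : ℝ) < 12 ^ d := by positivity
    linarith
  have hid : (1 - P) * (1 - P) = 1 - P := by
    simp only [Matrix.mul_sub, Matrix.sub_mul, hPP, Matrix.mul_one, Matrix.one_mul]
    abel
  have hPBP : P * (B * P) = B * P := by rw [← mul_assoc, hPB.eq, mul_assoc, hPP]
  have hBt : (B * P + t • (1 - P)) ^ d = (t ^ d) • (1 : Matrix Q Q ℝ) := by
    have h1 : (B * P) * (t • (1 - P)) = 0 := by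
      simp only [Matrix.mul_smul, Matrix.mul_sub, Matrix.mul_one, Matrix.mul_assoc, hPP,
        sub_self, smul_zero]
    have h2 : (t • (1 - P)) * (B * P) = 0 := by
      simp only [Matrix.smul_mul, Matrix.sub_mul, Matrix.one_mul, hPBP, sub_self, smul_zero]
    have h3 := add_pow_orth h1 h2 k
    rw [← hk] at h3
    have h4 : (1 - P) ^ d = 1 - P := by rw [hk]; exact idem_pow hid k
    rw [h3, hBP, smul_pow, h4, htd]
    module
  have hlow := le_det_one_sub hd0 (by linarith) hBt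
  have hfac : 1 - (B * P + t • (1 - P)) = (1 - B * P) * (P + (1 - t) • (1 - P)) := by
    simp only [Matrix.mul_sub, Matrix.sub_mul, Matrix.mul_add, Matrix.mul_smul,
      Matrix.mul_one, Matrix.one_mul, Matrix.mul_assoc, hPP]
    module
  obtain ⟨hT0, hT⟩ := log_det_proj (isHerm_of_transpose hPt) hPP (s := 1 - t) (by linarith)
  have hpos : 0 < (t - 1) ^ Fintype.card Q := pow_pos (by linarith) _
  rw [hfac, det_mul] at hlow
  have hM0 : (1 - B * P).det ≠ 0 := by
    intro h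
    rw [h, zero_mul, abs_zero] at hlow
    linarith
  refine ⟨hM0, ?_, ?_⟩
  · have h1 := Real.log_le_log hpos hlow
    rw [abs_mul, Real.log_mul (abs_ne_zero.mpr hM0) (abs_ne_zero.mpr hT0), hT, htr,
      Real.log_pow, abs_sub_comm, abs_of_pos (by linarith : 0 < t - 1)] at h1
    have h2 : Real.log 11 ≤ Real.log (t - 1) := Real.log_le_log (by norm_num) (by linarith)
    have h3 : (0 : ℝ) ≤ Fintype.card Q / 4 := by positivity
    have h4 := mul_le_mul_of_nonneg_left h2 h3
    linarith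
  · intro n
    have hPB' : P * Bᵀ = Bᵀ * P := by
      have := congrArg transpose hPB.eq
      rw [transpose_mul, transpose_mul, hPt] at this
      exact this.symm
    have h1 : (1 - B * P)ᵀ = 1 - P * Bᵀ := by
      rw [transpose_sub, transpose_one, transpose_mul, hPt]
    have h2 : (1 - B)ᵀ = 1 - Bᵀ := by rw [transpose_sub, transpose_one]
    rw [h1, h2, mul_proj hPP hPB', pow_proj hPP]
    have c1 : Commute P (1 - B) := (Commute.one_right _).sub_right hPB
    have c2 : Commute P (1 - Bᵀ) := (Commute.one_right _).sub_right hPB'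
    exact (c1.mul_right c2).eq

end Pool.Agent.P.MP_ae6ac5_an
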