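import Mathlib

set_option autoImplicit false

namespace Pool.Agent.P.MP_ae6ac5_an

/-- the integral Heisenberg group -/
@[ext] structure Heis : Type where
  a : ℤ
  b : ℤ
  c : ℤ

namespace Heis

instance : Mul Heis := ⟨fun g h => ⟨g.a + h.a, g.b + h.b, g.c + h.c + g.b * h.a⟩⟩
instance : One Heis := ⟨⟨0, 0, 0⟩⟩
instance : Inv Heis := ⟨fun g => ⟨-g.a, -g.b, g.a * g.b - g.c⟩⟩

@[simp] lemma mul_a (g h : Heis) : (g * h).a = g.a + h.a := rfl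
@[simp] lemma mul_b (g h : Heis) : (g * h).b = g.b + h.b := rfl
@[simp] lemma mul_c (g h : Heis) : (g * h).c = g.c + h.c + g.b * h.a := rfl
@[simp] lemma one_a : (1 : Heis).a = 0 := rfl
@[simp] lemma one_b : (1 : Heis).b = 0 := rfl
@[simp] lemma one_c : (1 : Heis).c = 0 := rfl
@[simp] lemma inv_a (g : Heis) : g⁻¹.a = -g.a := rfl
@[simp] lemma inv_b (g : Heis) : g⁻¹.b = -g.b := rfl
@[simp] lemma inv_c (g : Heis) : g⁻¹.c = g.a * g.b - g.c := rfl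

instance : Group Heis := Group.ofLeftAxioms
  (fun g h k => by ext <;> simp <;> ring)
  (fun g => by ext <;> simp)
  (fun g => by ext <;> simp; ring)

def x : Heis := ⟨1, 0, 0⟩
def y : Heis := ⟨0, 1, 0⟩
def z : Heis := ⟨0, 0, 1⟩

lemma x_pow (k : ℕ) : x ^ k = ⟨k, 0, 0⟩ := by
  induction k with
  | zero => rfl
  | succ k ih => rw [pow_succ, ih]; ext <;> simp [x]

lemma y_pow (k : ℕ) : y ^ k = ⟨0, k, 0⟩ := by
  induction k with
  | zero => rfl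
  | succ k ih => rw [pow_succ, ih]; ext <;> simp [y]

lemma z_pow (k : ℕ) : z ^ k = ⟨0, 0, k⟩ := by
  induction k with
  | zero => rfl
  | succ k ih => rw [pow_succ, ih]; ext <;> simp [z]

lemma yx : y * x = x * z * y := by ext <;> simp [x, y, z]
lemma zy : z * y = y * z := by ext <;> simp [y, z]
lemma zx : z * x = x * z := by ext <;> simp [x, z]

/-- the congruence subgroup `e * d ∣ a`, `d ∣ b`, `d ∣ c` -/
def K (e d : ℕ) : Subgroup Heis where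
  carrier := {g | ((e * d : ℕ) : ℤ) ∣ g.a ∧ (d : ℤ) ∣ g.b ∧ (d : ℤ) ∣ g.c}
  mul_mem' := by
    rintro g h ⟨h1, h2, h3⟩ ⟨h4, h5, h6⟩
    exact ⟨dvd_add h1 h4, dvd_add h2 h5, dvd_add (dvd_add h3 h6) (h2.mul_right _)⟩
  one_mem' := ⟨dvd_zero _, dvd_zero _, dvd_zero _⟩
  inv_mem' := by
    rintro g ⟨h1, h2, h3⟩
    exact ⟨h1.neg_right, h2.neg_right, dvd_sub (h2.mul_left _) h3⟩

lemma mem_K {e d : ℕ} {g : Heis} :
    g ∈ K e d ↔ ((e * d : ℕ) : ℤ) ∣ g.a ∧ (d : ℤ) ∣ g.b ∧ (d : ℤ) ∣ g.c := Iff.rfl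

lemma dvd_a {e d : ℕ} {a : ℤ} (h : ((e * d : ℕ) : ℤ) ∣ a) : (d : ℤ) ∣ a :=
  Dvd.dvd.trans (by push_cast; exact dvd_mul_left _ _) h

instance (e d : ℕ) : (K e d).Normal where
  conj_mem := by
    rintro n ⟨h1, h2, h3⟩ g
    refine ⟨?_, ?_, ?_⟩
    · simpa using h1
    · simpa using h2
    · have : (g * n * g⁻¹).c = n.c + g.b * n.a - g.a * n.b := by simp; ring
      rw [this]
      exact dvd_sub (dvd_add h3 ((dvd_a h1).mul_left _)) (h2.mul_left _)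

lemma finite_quot {e d : ℕ} (he : 0 < e) (hd : 0 < d) : Finite (Heis ⧸ K e d) := by
  have hed : (0 : ℤ) < ((e * d : ℕ) : ℤ) := by exact_mod_cast Nat.mul_pos he hd
  have hd' : (0 : ℤ) < (d : ℤ) := by exact_mod_cast hd
  let S : Set (ℤ × ℤ × ℤ) := Set.Ico 0 ((e * d : ℕ) : ℤ) ×ˢ Set.Ico 0 (d : ℤ) ×ˢ Set.Ico 0 (d : ℤ)
  have hS : S.Finite := (Set.finite_Ico _ _).prod ((Set.finite_Ico _ _).prod (Set.finite_Ico _ _))
  have : Finite S := hS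
  apply Finite.of_surjective
    (fun p : S => (QuotientGroup.mk ⟨p.1.1, p.1.2.1, p.1.2.2⟩ : Heis ⧸ K e d))
  intro q
  induction q using QuotientGroup.induction_on with
  | H g =>
    refine ⟨⟨(g.a % ((e * d : ℕ) : ℤ), g.b % d, g.c % d),
      ⟨Int.emod_nonneg _ hed.ne', Int.emod_lt_of_pos _ hed⟩,
      ⟨Int.emod_nonneg _ hd'.ne', Int.emod_lt_of_pos _ hd'⟩,
      ⟨Int.emod_nonneg _ hd'.ne', Int.emod_lt_of_pos _ hd'⟩⟩, ?_⟩
    simp only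
    rw [QuotientGroup.eq, mem_K]
    have h1 : ((e * d : ℕ) : ℤ) ∣ g.a - g.a % ((e * d : ℕ) : ℤ) := Int.dvd_self_sub_emod
    have h2 : (d : ℤ) ∣ g.b - g.b % d := Int.dvd_self_sub_emod
    have h3 : (d : ℤ) ∣ g.c - g.c % d := Int.dvd_self_sub_emod
    refine ⟨?_, ?_, ?_⟩
    · convert h1 using 1; simp; ring
    · convert h2 using 1; simp; ring
    · have h4 := dvd_sub h3 ((dvd_a h1).mul_left (g.b % d))
      simp only [mul_c, inv_c, inv_b]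
      have e4 : g.a % ((e * d : ℕ) : ℤ) * (g.b % d) - g.c % d + g.c + -(g.b % d) * g.a =
          g.c - g.c % d - g.b % d * (g.a - g.a % ((e * d : ℕ) : ℤ)) := by ring
      rw [e4]
      exact h4

lemma ev_small (g : Heis) :
    ∀ᶠ i : ℕ in Filter.atTop, |g.a| < 2 ^ i ∧ |g.b| < 2 ^ i ∧ |g.c| < 2 ^ i := by
  have h : ∀ a : ℤ, ∀ᶠ i : ℕ in Filter.atTop, |a| < 2 ^ i := by
    intro a
    filter_upwards [Filter.eventually_ge_atTop a.natAbs] with i hi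
    have h1 : a.natAbs < 2 ^ i := lt_of_le_of_lt hi Nat.lt_two_pow_self
    rw [← Int.natCast_natAbs]
    exact_mod_cast h1
  exact (h _).and ((h _).and (h _))

lemma eq_zero_of_dvd {i : ℕ} {a : ℤ} (h : |a| < 2 ^ i) (hd : ((2 ^ (i + 1) : ℕ) : ℤ) ∣ a) :
    a = 0 := by
  apply Int.eq_zero_of_abs_lt_dvd hd
  push_cast
  have : (0 : ℤ) < 2 ^ i := by positivity
  rw [pow_succ]; linarith

lemma not_dvd_add {a m : ℤ} (h : |a| < m) : ¬ (2 * m) ∣ a + m := by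
  intro hd
  rw [abs_lt] at h
  have := Int.le_of_dvd (by linarith [h.1]) hd
  linarith [h.2]

lemma sep_one {e i : ℕ} {g : Heis} (h : |g.a| < 2 ^ i ∧ |g.b| < 2 ^ i ∧ |g.c| < 2 ^ i)
    (hg : g ∈ K e (2 ^ (i + 1))) : g = 1 := by
  obtain ⟨h1, h2, h3⟩ := hg
  ext
  · exact eq_zero_of_dvd h.1 (dvd_a h1)
  · exact eq_zero_of_dvd h.2.1 h2
  · exact eq_zero_of_dvd h.2.2 h3

lemma sep_c {e i : ℕ} {g : Heis} (h : |g.a| < 2 ^ i ∧ |g.b| < 2 ^ i ∧ |g.c| < 2 ^ i) :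
    g * z ^ (2 ^ i) ∉ K e (2 ^ (i + 1)) := by
  rintro ⟨-, -, h3⟩
  apply not_dvd_add h.2.2
  convert h3 using 1
  · push_cast; ring
  · simp [z_pow]

lemma sep_e {i : ℕ} {g : Heis} (h : |g.a| < 2 ^ i ∧ |g.b| < 2 ^ i ∧ |g.c| < 2 ^ i) :
    g * x ^ (2 ^ (i + 1)) ∉ K 2 (2 ^ (i + 1)) := by
  rintro ⟨h1, -, -⟩
  have : |g.a| < 2 ^ (i + 1) := by
    have : (0 : ℤ) < 2 ^ i := by positivity
    rw [pow_succ]; linarith [h.1]
  apply not_dvd_add this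
  convert h1 using 1
  · simp
  · simp [x_pow]

lemma sep_ce {i : ℕ} {g : Heis} (h : |g.a| < 2 ^ i ∧ |g.b| < 2 ^ i ∧ |g.c| < 2 ^ i) :
    g * (z ^ (2 ^ i) * x ^ (2 ^ (i + 1))) ∉ K 2 (2 ^ (i + 1)) := by
  rintro ⟨h1, -, -⟩
  have : |g.a| < 2 ^ (i + 1) := by
    have : (0 : ℤ) < 2 ^ i := by positivity
    rw [pow_succ]; linarith [h.1]
  apply not_dvd_add this
  convert h1 using 1
  · simp
  · simp [x_pow, z_pow]

lemma one_small (i : ℕ) :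
    |(1 : Heis).a| < 2 ^ i ∧ |(1 : Heis).b| < 2 ^ i ∧ |(1 : Heis).c| < 2 ^ i := by
  simp

lemma K_anti {i j : ℕ} (h : i ≤ j) : K 1 (2 ^ (j + 1)) ≤ K 1 (2 ^ (i + 1)) := by
  have hd : ((2 ^ (i + 1) : ℕ) : ℤ) ∣ ((2 ^ (j + 1) : ℕ) : ℤ) :=
    Int.natCast_dvd_natCast.mpr (pow_dvd_pow 2 (by omega))
  rintro g ⟨h1, h2, h3⟩
  refine ⟨?_, hd.trans h2, hd.trans h3⟩
  rw [one_mul] at h1 ⊢
  exact hd.trans h1

lemma K_inf : (⨅ i : ℕ, K 1 (2 ^ (i + 1))) = ⊥ := by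
  rw [eq_bot_iff]
  intro g hg
  rw [Subgroup.mem_iInf] at hg
  obtain ⟨i, hi⟩ := (ev_small g).exists
  exact sep_one hi (hg i)

end Heis

end Pool.Agent.P.MP_ae6ac5_an
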