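import Mathlib

set_option autoImplicit false

open MeasureTheory Filter Topology Set
open scoped ENNReal BoundedContinuousFunction

namespace Pool.Agent.P.MP_ae6ac5_an

/-- empirical measure of a finite family of reals -/
noncomputable def emp {D : Type} [Fintype D] (l : D → ℝ) : Measure ℝ :=
  (Fintype.card D : ℝ≥0∞)⁻¹ • ∑ j, Measure.dirac (l j)

instance emp_prob {D : Type} [Fintype D] [Nonempty D] (l : D → ℝ) :
    IsProbabilityMeasure (emp l) := by
  constructor
  have h0 : (Fintype.card D : ℝ≥0∞) ≠ 0 := by simp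
  simp only [emp, Measure.smul_apply, Measure.coe_finsetSum, Finset.sum_apply, measure_univ,
    Finset.sum_const, Finset.card_univ, nsmul_eq_mul, mul_one, smul_eq_mul]
  exact ENNReal.inv_mul_cancel h0 (by simp)

lemma integral_emp {D : Type} [Fintype D] (l : D → ℝ) (f : ℝ → ℝ) :
    ∫ x, f x ∂(emp l) = (∑ j, f (l j)) / Fintype.card D := by
  rw [emp, integral_smul_measure, integral_finsetSum_measure
    (fun j _ => integrable_dirac (by simp))]
  simp [div_eq_inv_mul]

lemma emp_supp {D : Type} [Fintype D] (l : D → ℝ) {C : ℝ} (h : ∀ j, l j ∈ Icc 0 C) :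
    emp l (Icc 0 C)ᶜ = 0 := by
  simp only [emp, Measure.smul_apply, Measure.coe_finsetSum, Finset.sum_apply, smul_eq_mul]
  rw [Finset.sum_eq_zero, mul_zero]
  intro j _
  rw [Measure.dirac_apply' _ measurableSet_Icc.compl]
  simp [h j]

lemma setIntegral_log_emp {D : Type} [Fintype D] (l : D → ℝ) (h : ∀ j, 0 < l j) :
    ∫ x in Ioi 0, Real.log x ∂(emp l) = (∑ j, Real.log (l j)) / Fintype.card D := by
  rw [← integral_indicator measurableSet_Ioi, integral_emp]
  congr 1
  refine Finset.sum_congr rfl fun j _ => ?_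
  exact indicator_of_mem (show l j ∈ Ioi 0 from h j) _

lemma integrable_of_contOn {μ : Measure ℝ} [IsFiniteMeasure μ] {C : ℝ}
    (hμ : μ (Icc 0 C)ᶜ = 0) {f : ℝ → ℝ} (hf : ContinuousOn f (Icc 0 C)) : Integrable f μ := by
  have h1 : IntegrableOn f (Icc 0 C) μ := hf.integrableOn_Icc
  have h2 : μ.restrict (Icc 0 C) = μ := Measure.restrict_eq_self_of_ae_mem hμ
  rwa [IntegrableOn, h2] at h1

lemma exists_limit (ν : ℕ → Measure ℝ) [∀ i, IsProbabilityMeasure (ν i)] {C : ℝ} (hC : 0 ≤ C)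
    (hν : ∀ i, ν i (Icc 0 C)ᶜ = 0) (m : ℕ → ℝ)
    (hm : ∀ n : ℕ, ∀ᶠ i in atTop, ∫ x, x ^ n ∂(ν i) = m n) :
    ∃ μ : Measure ℝ, IsProbabilityMeasure μ ∧ μ (Icc 0 C)ᶜ = 0 ∧
      ∀ n : ℕ, ∫ x, x ^ n ∂μ = m n := by
  let K := Icc (0 : ℝ) C
  have hmeas : Measurable (projIcc (0 : ℝ) C hC) := (continuous_projIcc (h := hC)).measurable
  let P : ℕ → ProbabilityMeasure K := fun i =>
    ⟨(ν i).map (projIcc 0 C hC), Measure.isProbabilityMeasure_map hmeas.aemeasurable⟩
  obtain ⟨U, hU⟩ : ∃ U : Ultrafilter ℕ, (U : Filter ℕ) ≤ atTop := Ultrafilter.exists_le _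
  obtain ⟨Q, -, hQ⟩ := (isCompact_univ (X := ProbabilityMeasure K)).ultrafilter_le_nhds
    (U.map P) (by simp)
  have hQ' : Tendsto P U (𝓝 Q) := hQ
  rw [ProbabilityMeasure.tendsto_iff_forall_integral_tendsto] at hQ'
  have hval : Measurable (Subtype.val : K → ℝ) := measurable_subtype_coe
  refine ⟨(Q : Measure K).map Subtype.val,
    Measure.isProbabilityMeasure_map hval.aemeasurable, ?_, ?_⟩
  · rw [Measure.map_apply hval measurableSet_Icc.compl]
    have : (Subtype.val : K → ℝ) ⁻¹' (Icc 0 C)ᶜ = ∅ := by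
      ext x; simp [K]
    rw [this, measure_empty]
  · intro n
    let f : K →ᵇ ℝ := BoundedContinuousFunction.mkOfCompact
      ⟨fun x : K => (x : ℝ) ^ n, by fun_prop⟩
    have h1 := hQ' f
    have h2 : ∀ i, ∫ ω, f ω ∂(P i : Measure K) = ∫ x, x ^ n ∂(ν i) := by
      intro i
      change ∫ ω, f ω ∂((ν i).map (projIcc 0 C hC)) = _
      rw [integral_map hmeas.aemeasurable f.continuous.aestronglyMeasurable]
      apply integral_congr_ae
      have : ∀ᵐ x ∂(ν i), x ∈ Icc 0 C := hν i
      filter_upwards [this] with x hx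
      simp [f, projIcc_of_mem hC hx]
    simp only [h2] at h1
    have h3 : Tendsto (fun i => ∫ x, x ^ n ∂(ν i)) U (𝓝 (m n)) :=
      tendsto_const_nhds.congr' ((hm n).filter_mono hU |>.mono fun i hi => hi.symm)
    have h4 := tendsto_nhds_unique h1 h3
    rw [integral_map hval.aemeasurable (by fun_prop), ← h4]
    rfl

lemma integral_poly {μ : Measure ℝ} [IsFiniteMeasure μ] {C : ℝ}
    (hμ : μ (Icc 0 C)ᶜ = 0) (p : Polynomial ℝ) :
    ∫ x, p.eval x ∂μ =
      ∑ k ∈ Finset.range (p.natDegree + 1), p.coeff k * ∫ x, x ^ k ∂μ := by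
  simp only [Polynomial.eval_eq_sum_range]
  rw [integral_finsetSum]
  · simp only [integral_const_mul]
  · intro k _
    exact integrable_of_contOn hμ (by fun_prop)

lemma abs_integral_sub_le {μ : Measure ℝ} [IsProbabilityMeasure μ] {C : ℝ}
    (hμ : μ (Icc 0 C)ᶜ = 0) {f g : ℝ → ℝ} (hf : ContinuousOn f (Icc 0 C))
    (hg : ContinuousOn g (Icc 0 C)) {δ : ℝ} (h : ∀ x ∈ Icc 0 C, |f x - g x| < δ) :
    |∫ x, f x ∂μ - ∫ x, g x ∂μ| ≤ δ := by
  rw [← integral_sub (integrable_of_contOn hμ hf) (integrable_of_contOn hμ hg)]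
  have : ∀ᵐ x ∂μ, x ∈ Icc 0 C := hμ
  have h2 := norm_integral_le_of_norm_le_const (μ := μ) (f := fun x => f x - g x) (C := δ)
    (this.mono fun x hx => (h x hx).le)
  simpa using h2

lemma transfer {μ : Measure ℝ} [IsProbabilityMeasure μ] {C : ℝ} (hC : 1 ≤ C)
    (hμ : μ (Icc 0 C)ᶜ = 0) (η : ℕ → Measure ℝ) [∀ i, IsProbabilityMeasure (η i)]
    (hη : ∀ i, η i (Icc 0 C)ᶜ = 0)
    (hm : ∀ n : ℕ, ∀ᶠ i in atTop, ∫ x, x ^ n ∂(η i) = (1 / 4) * ∫ x, x ^ n ∂μ + 3 / 4)
    {f : ℝ → ℝ} (hf : ContinuousOn f (Icc 0 C)) {L : ℝ} (hL : ∀ i, L ≤ ∫ x, f x ∂(η i)) :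
    L ≤ (1 / 4) * ∫ x, f x ∂μ + (3 / 4) * f 1 := by
  apply le_of_forall_pos_le_add
  intro ε hε
  obtain ⟨p, hp⟩ := exists_polynomial_near_of_continuousOn 0 C f hf (ε / 2) (by linarith)
  have hev : ∀ᶠ i in atTop, ∀ k ∈ Finset.range (p.natDegree + 1),
      ∫ x, x ^ k ∂(η i) = (1 / 4) * ∫ x, x ^ k ∂μ + 3 / 4 :=
    (Finset.eventually_all _).mpr fun k _ => hm k
  obtain ⟨i, hi⟩ := hev.exists
  have hpc : ContinuousOn (fun x => p.eval x) (Icc 0 C) := p.continuous.continuousOn
  have h1 := abs_integral_sub_le (hη i) hpc hf hp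
  have h2 := abs_integral_sub_le hμ hpc hf hp
  have h3 := hp 1 ⟨zero_le_one, hC⟩
  have h4 : ∫ x, p.eval x ∂(η i) = (1 / 4) * ∫ x, p.eval x ∂μ + (3 / 4) * p.eval 1 := by
    rw [integral_poly (hη i), integral_poly hμ, Polynomial.eval_eq_sum_range,
      Finset.mul_sum, Finset.mul_sum, ← Finset.sum_add_distrib]
    refine Finset.sum_congr rfl fun k hk => ?_
    rw [hi k hk]
    ring
  have h5 := hL i
  rw [abs_le] at h1 h2
  rw [abs_lt] at h3
  linarith [h1.1, h1.2, h2.1, h2.2, h3.1, h3.2]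

lemma log_lower {μ : Measure ℝ} [IsProbabilityMeasure μ] {C : ℝ}
    (hμ : μ (Icc 0 C)ᶜ = 0) {L : ℝ}
    (hL : ∀ ε : ℝ, 0 < ε → L ≤ ∫ x, Real.log (x + ε) ∂μ + 3 * Real.log (1 + ε)) :
    IntegrableOn Real.log (Ioi 0) μ ∧ L ≤ ∫ x in Ioi 0, Real.log x ∂μ := by
  have hae : ∀ᵐ x ∂μ, x ∈ Icc 0 C := hμ
  let ε : ℕ → ℝ := fun k => 1 / ((k : ℝ) + 1)
  have hεpos : ∀ k, 0 < ε k := fun k => by positivity
  have hεle : ∀ k, ε k ≤ 1 := fun k => by
    have : (0 : ℝ) ≤ k := Nat.cast_nonneg k
    simp only [ε]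
    rw [div_le_one (by positivity)]; linarith
  have hεlim : Tendsto ε atTop (𝓝 0) := tendsto_one_div_add_atTop_nhds_zero_nat
  let A := Real.log (C + 1)
  let g : ℕ → ℝ → ℝ := fun k x => A - Real.log (x + ε k)
  have hcont : ∀ k, ContinuousOn (fun x => Real.log (x + ε k)) (Icc 0 C) := by
    intro k
    apply ContinuousOn.log (by fun_prop)
    intro x hx
    have := hεpos k
    have := hx.1
    linarith
  have hgint : ∀ k, Integrable (g k) μ := fun k =>
    (integrable_const A).sub (integrable_of_contOn hμ (hcont k))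
  have hgnn : ∀ k, 0 ≤ᵐ[μ] g k := by
    intro k
    filter_upwards [hae] with x hx
    have := hεpos k
    have := hεle k
    have := Real.log_le_log (x := x + ε k) (y := C + 1) (by linarith [hx.1]) (by linarith [hx.2])
    simp only [g, A, Pi.zero_apply]
    linarith
  have hgle : ∀ k, ∫ x, g k x ∂μ ≤ A - L + 3 * Real.log (1 + ε k) := by
    intro k
    have := hL (ε k) (hεpos k)
    simp only [g]
    rw [integral_sub (integrable_const A) (integrable_of_contOn hμ (hcont k))]
    simp only [integral_const, probReal_univ, smul_eq_mul, one_mul]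
    linarith
  let F : ℝ → ℝ≥0∞ := fun x => if x = 0 then ⊤ else ENNReal.ofReal (A - Real.log x)
  have hlim : ∀ᵐ x ∂μ, liminf (fun k => ENNReal.ofReal (g k x)) atTop = F x := by
    filter_upwards [hae] with x hx
    apply Tendsto.liminf_eq
    by_cases h0 : x = 0
    · subst h0
      simp only [F, if_true, g, zero_add]
      apply ENNReal.tendsto_ofReal_atTop.comp
      have h1 : Tendsto (fun k => Real.log (ε k)) atTop atBot :=
        Real.tendsto_log_nhdsGT_zero.comp
          (tendsto_nhdsWithin_iff.mpr ⟨hεlim, Eventually.of_forall fun k => hεpos k⟩)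
      exact tendsto_atTop_add_const_left _ _ (tendsto_neg_atBot_atTop.comp h1)
    · simp only [F, h0, if_false, g]
      apply ENNReal.tendsto_ofReal
      apply tendsto_const_nhds.sub
      have : Tendsto (fun k => x + ε k) atTop (𝓝 x) := by
        simpa using tendsto_const_nhds.add hεlim
      exact this.log h0
  have hFatou : ∫⁻ x, F x ∂μ ≤ ENNReal.ofReal (A - L) := by
    rw [← lintegral_congr_ae hlim]
    refine (lintegral_liminf_le' fun k =>
      (hgint k).aemeasurable.ennreal_ofReal).trans ?_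
    have h1 : Tendsto (fun k => ENNReal.ofReal (A - L + 3 * Real.log (1 + ε k))) atTop
        (𝓝 (ENNReal.ofReal (A - L))) := by
      apply ENNReal.tendsto_ofReal
      have : Tendsto (fun k => 1 + ε k) atTop (𝓝 1) := by
        simpa using tendsto_const_nhds.add hεlim
      have h2 := (this.log one_ne_zero).const_mul 3
      simpa using (tendsto_const_nhds (x := A - L)).add h2
    rw [← h1.liminf_eq]
    refine liminf_le_liminf (Eventually.of_forall fun k => ?_)
    rw [← ofReal_integral_eq_lintegral_ofReal (hgint k) (hgnn k)]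
    exact ENNReal.ofReal_le_ofReal (hgle k)
  have hFmeas : Measurable F := by
    apply Measurable.ite (measurableSet_singleton 0) measurable_const
    exact (measurable_const.sub Real.measurable_log).ennreal_ofReal
  have hne : ∀ᵐ x ∂μ, x ≠ 0 := by
    have := ae_lt_top hFmeas (hFatou.trans_lt ENNReal.ofReal_lt_top).ne
    filter_upwards [this] with x hx h0
    simp [F, h0] at hx
  have hpos : ∀ᵐ x ∂μ, x ∈ Ioi (0 : ℝ) := by
    filter_upwards [hae, hne] with x hx h0
    exact lt_of_le_of_ne hx.1 (Ne.symm h0)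
  have hres : μ.restrict (Ioi 0) = μ := Measure.restrict_eq_self_of_ae_mem hpos
  let G : ℝ → ℝ := fun x => A - Real.log x
  have hGnn : 0 ≤ᵐ[μ] G := by
    filter_upwards [hae, hpos] with x hx hx'
    have := Real.log_le_log (x := x) (y := C + 1) hx' (by linarith [hx.2])
    simp only [G, A, Pi.zero_apply]
    linarith
  have hGmeas : Measurable G := measurable_const.sub Real.measurable_log
  have hGF : ∫⁻ x, ENNReal.ofReal (G x) ∂μ = ∫⁻ x, F x ∂μ := by
    apply lintegral_congr_ae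
    filter_upwards [hne] with x hx
    simp [F, G, hx]
  have hGint : Integrable G μ := by
    refine ⟨hGmeas.aestronglyMeasurable, ?_⟩
    rw [hasFiniteIntegral_iff_ofReal hGnn, hGF]
    exact hFatou.trans_lt ENNReal.ofReal_lt_top
  have hlogint : Integrable Real.log μ := by
    have := (integrable_const A).sub hGint
    refine this.congr (Eventually.of_forall fun x => ?_)
    simp [G]
  have hAL : 0 ≤ A - L := by
    have h1 : Tendsto (fun k => A - L + 3 * Real.log (1 + ε k)) atTop (𝓝 (A - L)) := by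
      have : Tendsto (fun k => 1 + ε k) atTop (𝓝 1) := by
        simpa using tendsto_const_nhds.add hεlim
      have h2 := (this.log one_ne_zero).const_mul 3
      simpa using (tendsto_const_nhds (x := A - L)).add h2
    exact ge_of_tendsto' h1 fun k => (integral_nonneg_of_ae (hgnn k)).trans (hgle k)
  have hGle : ∫ x, G x ∂μ ≤ A - L := by
    rw [← ENNReal.ofReal_le_ofReal_iff hAL, ofReal_integral_eq_lintegral_ofReal hGint hGnn, hGF]
    exact hFatou
  refine ⟨by rwa [IntegrableOn, hres], ?_⟩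
  rw [hres]
  simp only [G] at hGle
  rw [integral_sub (integrable_const A) hlogint] at hGle
  simp only [integral_const, probReal_univ, smul_eq_mul, one_mul] at hGle
  linarith

end Pool.Agent.P.MP_ae6ac5_an
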