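import Pool.Agent.P.MP_ae6ac5_an.Mom
import Pool.Agent.P.MP_ae6ac5_an.Meas
import Pool.Agent.P.MP_ae6ac5_an.Heis

set_option autoImplicit false

open Matrix MeasureTheory Filter Topology Set

namespace Pool.Agent.P.MP_ae6ac5_an

/-- eigenvalue distribution of `M * Mᵀ` -/
noncomputable def spec {D : Type} [Fintype D] [DecidableEq D] (M : Matrix D D ℝ) : Measure ℝ :=
  emp (herm_mul_transpose M).eigenvalues

section spec
variable {D : Type} [Fintype D] [DecidableEq D]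

instance spec_prob [Nonempty D] (M : Matrix D D ℝ) : IsProbabilityMeasure (spec M) :=
  emp_prob _

lemma spec_supp {M : Matrix D D ℝ} (h : Bdd2 M 25) : spec M (Icc 0 625)ᶜ = 0 := by
  apply emp_supp
  intro j
  have := h.eigen_mem j
  norm_num at this ⊢
  exact this

lemma spec_moment (M : Matrix D D ℝ) (n : ℕ) :
    ∫ x, x ^ n ∂(spec M) = ((M * Mᵀ) ^ n).trace / Fintype.card D := by
  rw [spec, integral_emp, trace_pow_eq (herm_mul_transpose M)]

lemma spec_log {M : Matrix D D ℝ} (h : M.det ≠ 0) :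
    ∫ x in Ioi 0, Real.log x ∂(spec M) = 2 * Real.log |M.det| / Fintype.card D := by
  rw [spec, setIntegral_log_emp _ (eigen_pos M h), sum_log_eigen M h]

lemma spec_log_eps {M : Matrix D D ℝ} (h : M.det ≠ 0) {ε : ℝ} (hε : 0 < ε) :
    2 * Real.log |M.det| / Fintype.card D ≤ ∫ x, Real.log (x + ε) ∂(spec M) := by
  rw [spec, integral_emp, ← sum_log_eigen M h]
  apply div_le_div_of_nonneg_right _ (Nat.cast_nonneg _)
  exact Finset.sum_le_sum fun j _ => Real.log_le_log (eigen_pos M h j) (by linarith)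

end spec

open Heis

/-- the finite quotients -/
abbrev Qt (e i : ℕ) : Type := Heis ⧸ K (e + 1) (2 ^ (i + 1))

noncomputable instance (e i : ℕ) : Fintype (Qt e i) :=
  @Fintype.ofFinite _ (finite_quot (by omega) (by positivity))

noncomputable instance (e i : ℕ) : DecidableEq (Qt e i) := Classical.decEq _

/-- the quotient map -/
abbrev pr (e i : ℕ) : Heis →* Qt e i := QuotientGroup.mk' _

lemma pr_eq_one {e i : ℕ} {g : Heis} : pr e i g = 1 ↔ g ∈ K (e + 1) (2 ^ (i + 1)) :=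
  QuotientGroup.eq_one_iff g

lemma card_pos (e i : ℕ) : (0 : ℝ) < Fintype.card (Qt e i) := by
  exact_mod_cast Fintype.card_pos

/-- moments over the Heisenberg group -/
noncomputable def mom (n : ℕ) : ℝ := (((AA x y * AS x y) ^ n).coeff 1 : ℤ)

/-- spectral measures of the chain of quotients -/
noncomputable def nu (i : ℕ) : Measure ℝ := spec (1 - BB (pr 0 i x) (pr 0 i y))

instance (i : ℕ) : IsProbabilityMeasure (nu i) := spec_prob _

lemma nu_supp (i : ℕ) : nu i (Icc 0 625)ᶜ = 0 :=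
  spec_supp ((Bdd2.one.sub (BB_bdd _ _)).mono (by norm_num))

lemma nu_moment (i n : ℕ) : ∫ t, t ^ n ∂(nu i) =
    (((AA (pr 0 i x) (pr 0 i y) * AS (pr 0 i x) (pr 0 i y)) ^ n).coeff 1 : ℤ) := by
  rw [nu, spec_moment]
  have h1 := Psi_pow (MonoidHom.id (Qt 0 i)) (pr 0 i x) (pr 0 i y) n
  simp only [MonoidHom.id_apply] at h1
  rw [← h1, trace_Psi_one _ _ (fun g _ h => h)]
  field_simp [(card_pos 0 i).ne']

lemma ev_supp (W : MonoidAlgebra ℤ Heis) : ∀ᶠ i : ℕ in atTop, ∀ g ∈ W.coeff.support,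
    |g.a| < 2 ^ i ∧ |g.b| < 2 ^ i ∧ |g.c| < 2 ^ i :=
  (Finset.eventually_all _).mpr fun g _ => ev_small g

lemma nu_moment_ev (n : ℕ) : ∀ᶠ i in atTop, ∫ t, t ^ n ∂(nu i) = mom n := by
  filter_upwards [ev_supp ((AA x y * AS x y) ^ n)] with i hi
  rw [nu, spec_moment, ← Psi_pow,
    trace_Psi_one _ _ (fun g hg h => sep_one (hi g hg) (pr_eq_one.mp h)), mom]
  field_simp [(card_pos 0 i).ne']

lemma rel_yx (e i : ℕ) : pr e i y * pr e i x = pr e i x * pr e i z * pr e i y := by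
  rw [← map_mul, yx, map_mul, map_mul]

lemma rel_zy (e i : ℕ) : pr e i z * pr e i y = pr e i y * pr e i z := by
  rw [← map_mul, zy, map_mul]

lemma rel_zx (e i : ℕ) : pr e i z * pr e i x = pr e i x * pr e i z := by
  rw [← map_mul, zx, map_mul]

lemma rel_z (e i : ℕ) : pr e i z ^ (2 ^ (i + 1)) = 1 := by
  rw [← map_pow, pr_eq_one, z_pow, mem_K]; simp

lemma rel_y (e i : ℕ) : pr e i y ^ (2 ^ (i + 1)) = 1 := by
  rw [← map_pow, pr_eq_one, y_pow, mem_K]; simp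

lemma rel_c (e i : ℕ) : pr e i z ^ (2 ^ i) ≠ 1 := by
  rw [← map_pow, Ne, pr_eq_one]
  simpa using sep_c (e := e + 1) (one_small i)

lemma nu_log (i : ℕ) : ∫ t in Ioi 0, Real.log t ∂(nu i) ≤ 2 * Real.log 10 := by
  rw [nu, spec_log (det_ne_zero _ _), div_le_iff₀ (card_pos 0 i)]
  have := bad_bound i (rel_yx 0 i) (rel_zy 0 i) (rel_zx 0 i)
    (by rw [← map_pow, pr_eq_one, x_pow, mem_K]; simp) (rel_z 0 i) (rel_c 0 i)
  linarith

/-- the matrices used for the lower bound -/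
noncomputable def MM (i : ℕ) : Matrix (Qt 1 i) (Qt 1 i) ℝ :=
  1 - BB (pr 1 i x) (pr 1 i y) * PP (pr 1 i z ^ (2 ^ i)) (pr 1 i x ^ (2 ^ (i + 1)))

lemma rel_e (i : ℕ) : pr 1 i x ^ (2 ^ (i + 1)) ≠ 1 := by
  rw [← map_pow, Ne, pr_eq_one]
  simpa using sep_e (one_small i)

lemma rel_ce (i : ℕ) : pr 1 i z ^ (2 ^ i) * pr 1 i x ^ (2 ^ (i + 1)) ≠ 1 := by
  rw [← map_pow, ← map_pow, ← map_mul, Ne, pr_eq_one]
  simpa using sep_ce (one_small i)

lemma MM_good (i : ℕ) : (MM i).det ≠ 0 ∧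
    Fintype.card (Qt 1 i) / 4 * Real.log 11 ≤ Real.log |(MM i).det| ∧
    ∀ k : ℕ, (MM i * (MM i)ᵀ) ^ k =
      ((1 - BB (pr 1 i x) (pr 1 i y)) * (1 - BB (pr 1 i x) (pr 1 i y))ᵀ) ^ k *
        PP (pr 1 i z ^ (2 ^ i)) (pr 1 i x ^ (2 ^ (i + 1))) +
        (1 - PP (pr 1 i z ^ (2 ^ i)) (pr 1 i x ^ (2 ^ (i + 1)))) := by
  apply good_bound i (rel_yx 1 i) (rel_zy 1 i) (rel_zx 1 i) _ (rel_y 1 i) (rel_z 1 i) _
    (rel_c 1 i) (rel_e i) (rel_ce i)
  · rw [← map_pow, ← map_mul, pr_eq_one, x_pow, mem_K]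
    simp [two_mul]
  · rw [← map_pow, ← map_mul, ← map_mul]
    apply QuotientGroup.eq.mpr
    rw [x_pow, mem_K]
    simp [y]

noncomputable def eta (i : ℕ) : Measure ℝ := spec (MM i)

instance (i : ℕ) : IsProbabilityMeasure (eta i) := spec_prob _

lemma eta_supp (i : ℕ) : eta i (Icc 0 625)ᶜ = 0 :=
  spec_supp ((Bdd2.one.sub ((BB_bdd _ _).mul (PP_bdd _ _))).mono (by norm_num))

lemma eta_moment_ev (n : ℕ) :
    ∀ᶠ i in atTop, ∫ t, t ^ n ∂(eta i) = (1 / 4) * mom n + 3 / 4 := by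
  filter_upwards [ev_supp ((AA x y * AS x y) ^ n)] with i hi
  rw [eta, spec_moment, (MM_good i).2.2, ← Psi_pow, trace_add, trace_sub, trace_one,
    trace_PP (rel_c 1 i) (rel_e i) (rel_ce i),
    trace_Psi_PP _ _ (fun g hg h => sep_one (hi g hg) (pr_eq_one.mp h)), mom]
  · field_simp [(card_pos 1 i).ne']
    ring
  · intro g hg
    rw [← map_pow, ← map_mul, Ne, pr_eq_one]
    exact sep_c (hi g hg)
  · intro g hg
    rw [← map_pow, ← map_mul, Ne, pr_eq_one]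
    exact sep_e (hi g hg)
  · intro g hg
    rw [← map_pow, ← map_pow, ← map_mul, ← map_mul, Ne, pr_eq_one]
    exact sep_ce (hi g hg)

lemma eta_log (i : ℕ) {ε : ℝ} (hε : 0 < ε) :
    (1 / 2) * Real.log 11 ≤ ∫ t, Real.log (t + ε) ∂(eta i) := by
  refine le_trans ?_ (spec_log_eps (MM_good i).1 hε)
  rw [le_div_iff₀ (card_pos 1 i)]
  have := (MM_good i).2.1
  linarith

theorem exists_mu : ∃ μ : Measure ℝ, IsProbabilityMeasure μ ∧ μ (Icc 0 625)ᶜ = 0 ∧
    (∀ n : ℕ, ∫ t, t ^ n ∂μ = mom n) ∧ IntegrableOn Real.log (Ioi 0) μ ∧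
    2 * Real.log 11 ≤ ∫ t in Ioi 0, Real.log t ∂μ := by
  obtain ⟨μ, h1, h2, h3⟩ := exists_limit nu (by norm_num) nu_supp mom nu_moment_ev
  refine ⟨μ, h1, h2, h3, log_lower h2 fun ε hε => ?_⟩
  have hcont : ContinuousOn (fun t : ℝ => Real.log (t + ε)) (Icc 0 625) := by
    apply ContinuousOn.log (by fun_prop)
    intro t ht
    have := ht.1
    linarith
  have := transfer (by norm_num) h2 eta eta_supp
    (fun n => by rw [h3 n]; exact eta_moment_ev n) hcont (fun i => eta_log i hε)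
  linarith

end Pool.Agent.P.MP_ae6ac5_an
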