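import Mathlib

set_option autoImplicit false

open Matrix Polynomial

namespace Pool.Agent.P.MP_ae6ac5_an

variable {D : Type} [Fintype D] [DecidableEq D]

/-- sup-norm operator bound -/
def Bdd (M : Matrix D D ℝ) (c : ℝ) : Prop := ∀ v : D → ℝ, ‖M *ᵥ v‖ ≤ c * ‖v‖

omit [DecidableEq D] in
lemma Bdd.add {M N : Matrix D D ℝ} {a b : ℝ} (h : Bdd M a) (h' : Bdd N b) :
    Bdd (M + N) (a + b) := by
  intro v
  rw [add_mulVec, add_mul]
  exact (norm_add_le _ _).trans (add_le_add (h v) (h' v))

omit [DecidableEq D] in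
lemma Bdd.sub {M N : Matrix D D ℝ} {a b : ℝ} (h : Bdd M a) (h' : Bdd N b) :
    Bdd (M - N) (a + b) := by
  intro v
  rw [sub_mulVec, add_mul]
  exact (norm_sub_le _ _).trans (add_le_add (h v) (h' v))

omit [DecidableEq D] in
lemma Bdd.mul {M N : Matrix D D ℝ} {a b : ℝ} (ha : 0 ≤ a) (h : Bdd M a) (h' : Bdd N b) :
    Bdd (M * N) (a * b) := by
  intro v
  rw [← mulVec_mulVec, mul_assoc]
  exact (h _).trans (mul_le_mul_of_nonneg_left (h' v) ha)

omit [DecidableEq D] in
lemma Bdd.smul {M : Matrix D D ℝ} {a : ℝ} (s : ℝ) (hs : 0 ≤ s) (h : Bdd M a) :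
    Bdd (s • M) (s * a) := by
  intro v
  rw [smul_mulVec, norm_smul, Real.norm_of_nonneg hs, mul_assoc]
  exact mul_le_mul_of_nonneg_left (h v) hs

lemma Bdd.one : Bdd (1 : Matrix D D ℝ) 1 := by
  intro v; simp

omit [DecidableEq D] in
lemma Bdd.mono {M : Matrix D D ℝ} {a b : ℝ} (h : Bdd M a) (hab : a ≤ b) : Bdd M b :=
  fun v => (h v).trans (mul_le_mul_of_nonneg_right hab (norm_nonneg _))

lemma Bdd.eigen_le {S : Matrix D D ℝ} {c : ℝ} (h : Bdd S c) (hS : S.IsHermitian) (j : D) :
    hS.eigenvalues j ≤ c := by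
  have h1 := hS.mulVec_eigenvectorBasis j
  have h2 := h (⇑(hS.eigenvectorBasis j))
  rw [h1, norm_smul] at h2
  have hv : (⇑(hS.eigenvectorBasis j) : D → ℝ) ≠ 0 := by
    intro h0
    have := (hS.eigenvectorBasis).orthonormal.ne_zero j
    apply this
    ext i
    exact congrFun h0 i
  have hpos : 0 < ‖(⇑(hS.eigenvectorBasis j) : D → ℝ)‖ := norm_pos_iff.mpr hv
  have := le_of_mul_le_mul_right h2 hpos
  exact (le_abs_self _).trans this

lemma exists_diag {S : Matrix D D ℝ} (hS : S.IsHermitian) :
    ∃ U V : Matrix D D ℝ, V * U = 1 ∧ U * V = 1 ∧ S = U * diagonal hS.eigenvalues * V := by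
  refine ⟨hS.eigenvectorUnitary, star (hS.eigenvectorUnitary : Matrix D D ℝ), ?_, ?_, ?_⟩
  · exact Unitary.coe_star_mul_self _
  · exact Unitary.coe_mul_star_self _
  · have := hS.spectral_theorem
    rw [Unitary.conjStarAlgAut_apply] at this
    simpa using this

lemma trace_pow_eq {S : Matrix D D ℝ} (hS : S.IsHermitian) (n : ℕ) :
    (S ^ n).trace = ∑ j, hS.eigenvalues j ^ n := by
  obtain ⟨U, V, h1, h2, h3⟩ := exists_diag hS
  have : S ^ n = U * diagonal (fun j => hS.eigenvalues j ^ n) * V := by
    induction n with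
    | zero => simp [h2]
    | succ n ih =>
      rw [pow_succ, ih]
      conv_lhs => rhs; rw [h3]
      have : diagonal (fun j => hS.eigenvalues j ^ (n + 1)) =
          diagonal (fun j => hS.eigenvalues j ^ n) * diagonal hS.eigenvalues := by
        rw [diagonal_mul_diagonal]; simp [pow_succ]
      rw [this]
      simp only [Matrix.mul_assoc]
      rw [← Matrix.mul_assoc V U, h1, Matrix.one_mul]
  rw [this, trace_mul_comm, ← Matrix.mul_assoc, h1, Matrix.one_mul, trace_diagonal]

omit [DecidableEq D] in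
lemma herm_mul_transpose (M : Matrix D D ℝ) : (M * Mᵀ).IsHermitian := by
  have := Matrix.isHermitian_mul_conjTranspose_self M
  simpa using this

lemma eigen_nonneg (M : Matrix D D ℝ) (j : D) : 0 ≤ (herm_mul_transpose M).eigenvalues j := by
  have : (M * Mᵀ).PosSemidef := by
    have := Matrix.posSemidef_self_mul_conjTranspose M
    simpa using this
  exact this.eigenvalues_nonneg j

lemma prod_eigen (M : Matrix D D ℝ) :
    ∏ j, (herm_mul_transpose M).eigenvalues j = M.det ^ 2 := by
  have := (herm_mul_transpose M).det_eq_prod_eigenvalues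
  simp only [det_mul, det_transpose, RCLike.ofReal_real_eq_id, id] at this
  rw [← this, sq]

lemma sum_log_eigen (M : Matrix D D ℝ) (h : M.det ≠ 0) :
    ∑ j, Real.log ((herm_mul_transpose M).eigenvalues j) = 2 * Real.log |M.det| := by
  have hp := prod_eigen M
  have hne : ∀ j ∈ Finset.univ, (herm_mul_transpose M).eigenvalues j ≠ 0 := by
    rw [← Finset.prod_ne_zero_iff, hp]
    exact pow_ne_zero 2 h
  rw [← Real.log_prod hne, hp, Real.log_abs, Real.log_pow]
  norm_num

lemma eigen_pos (M : Matrix D D ℝ) (h : M.det ≠ 0) (j : D) :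
    0 < (herm_mul_transpose M).eigenvalues j := by
  have hp := prod_eigen M
  have hne : ∀ j ∈ Finset.univ, (herm_mul_transpose M).eigenvalues j ≠ 0 := by
    rw [← Finset.prod_ne_zero_iff, hp]
    exact pow_ne_zero 2 h
  exact lt_of_le_of_ne (eigen_nonneg M j) (hne j (Finset.mem_univ _)).symm

/-- upper bound for the determinant -/
lemma log_det_le {M : Matrix D D ℝ} {c : ℝ} (hc : 0 < c) (h : Bdd M c) (h' : Bdd Mᵀ c)
    (hd : M.det ≠ 0) : Real.log |M.det| ≤ Fintype.card D * Real.log c := by
  have h1 := sum_log_eigen M hd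
  have h2 : ∀ j, Real.log ((herm_mul_transpose M).eigenvalues j) ≤ 2 * Real.log c := by
    intro j
    have := (h.mul hc.le h').eigen_le (herm_mul_transpose M) j
    calc _ ≤ Real.log (c * c) := Real.log_le_log (eigen_pos M hd j) this
      _ = 2 * Real.log c := by rw [Real.log_mul hc.ne' hc.ne']; ring
  have h3 : ∑ j, Real.log ((herm_mul_transpose M).eigenvalues j)
      ≤ ∑ _j : D, 2 * Real.log c := Finset.sum_le_sum fun j _ => h2 j
  rw [h1] at h3
  simp only [Finset.sum_const, Finset.card_univ, nsmul_eq_mul] at h3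
  linarith

/-- determinant of a combination of complementary symmetric projections -/
lemma log_det_proj {P : Matrix D D ℝ} (hP : P.IsHermitian) (hPP : P * P = P) {s : ℝ}
    (hs : s ≠ 0) : (P + s • (1 - P)).det ≠ 0 ∧
      Real.log |(P + s • (1 - P)).det| = (Fintype.card D - P.trace) * Real.log |s| := by
  obtain ⟨U, V, h1, h2, h3⟩ := exists_diag hP
  set l := hP.eigenvalues with hl
  have hll : ∀ j, l j * l j = l j := by
    have e1 : V * P * U = diagonal l := by
      rw [h3]; simp only [Matrix.mul_assoc]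
      rw [h1, Matrix.mul_one, ← Matrix.mul_assoc, h1, Matrix.one_mul]
    have e2 : diagonal l * diagonal l = diagonal l := by
      rw [← e1]
      calc V * P * U * (V * P * U) = V * P * (U * V) * P * U := by simp only [Matrix.mul_assoc]
        _ = V * (P * P) * U := by rw [h2]; simp only [Matrix.mul_assoc, Matrix.mul_one]
        _ = V * P * U := by rw [hPP]
    rw [diagonal_mul_diagonal] at e2
    intro j
    exact congrFun (diagonal_injective e2) j
  have h01 : ∀ j, l j = 0 ∨ l j = 1 := by
    intro j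
    have := hll j
    rcases eq_or_ne (l j) 0 with h | h
    · exact Or.inl h
    · exact Or.inr (mul_left_cancel₀ h (by rw [this, mul_one]))
  have e3 : P + s • (1 - P) = U * diagonal (fun j => l j + s * (1 - l j)) * V := by
    have : diagonal (fun j => l j + s * (1 - l j)) = diagonal l + s • (1 - diagonal l) := by
      ext i j
      by_cases hij : i = j
      · subst hij; simp
      · simp [hij]
    rw [this, Matrix.mul_add, Matrix.add_mul, ← h3, Matrix.mul_smul, Matrix.smul_mul,
      Matrix.mul_sub, Matrix.sub_mul, ← h3, Matrix.mul_one, h2]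
  have e4 : (P + s • (1 - P)).det = ∏ j, (l j + s * (1 - l j)) := by
    rw [e3, det_mul, det_mul, mul_comm, ← mul_assoc, ← det_mul, h1, det_one, one_mul,
      det_diagonal]
  have hne : ∀ j ∈ Finset.univ, (l j + s * (1 - l j)) ≠ 0 := by
    intro j _
    rcases h01 j with h | h <;> simp [h, hs]
  have etr : P.trace = ∑ j, l j := by
    have := trace_pow_eq hP 1
    simpa using this
  refine ⟨?_, ?_⟩
  · rw [e4]; exact Finset.prod_ne_zero_iff.mpr hne
  · rw [e4, Real.log_abs, Real.log_prod hne, etr, Real.log_abs]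
    have : ∀ j, Real.log (l j + s * (1 - l j)) = (1 - l j) * Real.log s := by
      intro j
      rcases h01 j with h | h <;> simp [h]
    simp only [this, ← Finset.sum_mul, Finset.sum_sub_distrib, Finset.sum_const,
      Finset.card_univ, nsmul_eq_mul, mul_one]

/-- the determinant of `1 - B` through the complex eigenvalues of `B` -/
lemma det_one_sub_roots (B : Matrix D D ℝ) :
    ∃ r : Multiset ℂ, r.card = Fintype.card D ∧
      (((1 - B).det : ℝ) : ℂ) = (r.map fun μ => 1 - μ).prod ∧
      ∀ μ ∈ r, ∀ (d : ℕ) (κ : ℝ), B ^ d = κ • (1 : Matrix D D ℝ) → μ ^ d = κ := by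
  let f : ℝ →+* ℂ := Complex.ofRealHom
  let B' : Matrix D D ℂ := f.mapMatrix B
  have hsp : B'.charpoly.Splits := IsAlgClosed.splits _
  refine ⟨B'.charpoly.roots, ?_, ?_, ?_⟩
  · rw [← Matrix.charpoly_natDegree_eq_dim B']
    exact (splits_iff_card_roots.mp hsp)
  · have e1 : (((1 - B).det : ℝ) : ℂ) = (1 - B').det := by
      have := RingHom.map_det f (1 - B)
      rw [map_sub, map_one] at this
      exact this
    have e2 := Matrix.eval_charpoly B' 1
    rw [map_one] at e2
    rw [e1, ← e2]
    conv_lhs => rw [hsp.eq_prod_roots_of_monic (Matrix.charpoly_monic B')]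
    rw [eval_multiset_prod, Multiset.map_map]
    simp
  · intro μ hμ d κ hd
    have hroot : B'.charpoly.IsRoot μ := (mem_roots (Matrix.charpoly_monic B').ne_zero).mp hμ
    have hmem : μ ∈ spectrum ℂ B' := Matrix.mem_spectrum_iff_isRoot_charpoly.mpr hroot
    have hne : Nonempty D := by
      by_contra hD
      rw [not_nonempty_iff] at hD
      simp [Matrix.charpoly_isEmpty] at hroot
    have hpow := spectrum.pow_mem_pow B' d hmem
    have : B' ^ d = algebraMap ℂ (Matrix D D ℂ) (κ : ℂ) := by
      rw [← map_pow, hd]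
      ext i j
      by_cases hij : i = j
      · subst hij; simp [f, Matrix.algebraMap_matrix_apply]
      · simp [f, Matrix.algebraMap_matrix_apply, hij]
    rw [this, spectrum.scalar_eq] at hpow
    exact hpow

lemma det_one_sub_nilp {B : Matrix D D ℝ} {d : ℕ} (h : B ^ d = 0) : (1 - B).det = 1 := by
  obtain ⟨r, -, h2, h3⟩ := det_one_sub_roots B
  have : ∀ μ ∈ r, 1 - μ = 1 := by
    intro μ hμ
    have := h3 μ hμ d 0 (by simp [h])
    simp only [Complex.ofReal_zero] at this
    simp [pow_eq_zero_iff'.mp this |>.1]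
  rw [Multiset.map_congr rfl this] at h2
  simp only [Multiset.map_const', Multiset.prod_replicate, one_pow] at h2
  exact_mod_cast h2

lemma le_det_one_sub {B : Matrix D D ℝ} {d : ℕ} (hd : d ≠ 0) {t : ℝ} (ht : 1 < t)
    (h : B ^ d = (t ^ d) • (1 : Matrix D D ℝ)) :
    (t - 1) ^ Fintype.card D ≤ |(1 - B).det| := by
  obtain ⟨r, h1, h2, h3⟩ := det_one_sub_roots B
  have hμ : ∀ μ ∈ r, t - 1 ≤ ‖1 - μ‖ := by
    intro μ hμ
    have e := h3 μ hμ d _ h
    have e' : ‖μ‖ ^ d = t ^ d := by
      rw [← norm_pow, e, Complex.norm_real, Real.norm_of_nonneg (by positivity)]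
    have e'' : ‖μ‖ = t := (pow_left_inj₀ (norm_nonneg _) (by linarith) hd).mp e'
    have := norm_sub_norm_le μ 1
    rw [norm_sub_rev] at this
    simp only [norm_one] at this
    linarith
  have e : |(1 - B).det| = (r.map fun μ => ‖1 - μ‖).prod := by
    rw [← Real.norm_eq_abs, ← Complex.norm_real, h2]
    have := map_multiset_prod (normHom : ℂ →*₀ ℝ) (r.map fun μ => 1 - μ)
    simpa [Multiset.map_map] using this
  rw [e, ← h1]
  clear h1 h2 h3 e
  induction r using Multiset.induction_on with
  | empty => simp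
  | cons a s ih =>
    simp only [Multiset.card_cons, Multiset.map_cons, Multiset.prod_cons, pow_succ]
    rw [mul_comm]
    apply mul_le_mul (hμ a (Multiset.mem_cons_self _ _))
      (ih fun μ h => hμ μ (Multiset.mem_cons_of_mem h)) (pow_nonneg (by linarith) _)
      (norm_nonneg _)

end Pool.Agent.P.MP_ae6ac5_an
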