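import Pool.Agent.P.MP_ae6ac5_an.Reg

set_option autoImplicit false

open Matrix

namespace Pool.Agent.P.MP_ae6ac5_an

section ring
variable {H : Type} [Group H]

lemma finsum_conv (U V : MonoidAlgebra ℤ H) (g : H) :
    ∑ᶠ h : H, U.coeff h * V.coeff (h⁻¹ * g) = (U * V).coeff g := by
  rw [MonoidAlgebra.coeff_mul_apply_left, Finsupp.sum]
  apply finsum_eq_sum_of_support_subset
  intro h hh
  simp only [Function.mem_support, ne_eq, mul_eq_zero, not_or] at hh
  simpa using hh.1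

lemma iter_eq (b : Fin 1 → Fin 1 → H →₀ ℤ) (A A' : MonoidAlgebra ℤ H)
    (hb : ∀ k l, b k l = A.coeff) (hA' : ∀ g, A'.coeff g = A.coeff g⁻¹)
    (X0 : Fin 1 → Fin 1 → H → ℤ)
    (h0 : ∀ k l g, X0 k l g = (1 : MonoidAlgebra ℤ H).coeff g) (n : ℕ) :
    Nat.iterate
      (fun (X : Fin 1 → Fin 1 → H → ℤ) => fun (k₁ k₂ : Fin 1) (g : H) =>
        ∑ k' : Fin 1, ∑ᶠ h : H, X k₁ k' h *
          ∑ l : Fin 1, ∑ᶠ t : H, b k' l t * b k₂ l ((h⁻¹ * g)⁻¹ * t)) n X0 =
      fun _ _ g => ((A * A') ^ n).coeff g := by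
  induction n with
  | zero => funext k l g; simp [h0]
  | succ n ih =>
    rw [Function.iterate_succ_apply', ih]
    funext k l g
    have h1 : ∀ w : H, ∑ᶠ t : H, A.coeff t * A.coeff (w⁻¹ * t) = (A * A').coeff w := by
      intro w
      rw [← finsum_conv]
      simp [hA']
    simp only [Finset.univ_unique, Finset.sum_singleton, hb, h1]
    rw [finsum_conv, pow_succ]

lemma one_coeff (k l : Fin 1) (g : H) (inst : Decidable (k = l ∧ g = 1)) :
    (@ite ℤ (k = l ∧ g = 1) inst 1 0) = (1 : MonoidAlgebra ℤ H).coeff g := by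
  classical
  simp [Subsingleton.elim k l, MonoidAlgebra.one_def, Finsupp.single_apply, eq_comm]

/-- the element `1 - 12 (1 - x) y` -/
noncomputable def aa (x y : H) : H →₀ ℤ :=
  Finsupp.single 1 1 - Finsupp.single y 12 + Finsupp.single (x * y) 12

noncomputable def AA (x y : H) : MonoidAlgebra ℤ H :=
  MonoidAlgebra.single 1 1 - MonoidAlgebra.single y 12 + MonoidAlgebra.single (x * y) 12

noncomputable def AS (x y : H) : MonoidAlgebra ℤ H :=
  MonoidAlgebra.single 1 1 - MonoidAlgebra.single y⁻¹ 12 + MonoidAlgebra.single (x * y)⁻¹ 12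

lemma aa_eq (x y : H) : aa x y = (AA x y).coeff := rfl

lemma AS_coeff (x y g : H) : (AS x y).coeff g = (AA x y).coeff g⁻¹ := by
  classical
  simp only [AS, AA, MonoidAlgebra.coeff_add, MonoidAlgebra.coeff_sub,
    MonoidAlgebra.coeff_single, Finsupp.add_apply, Finsupp.sub_apply, Finsupp.single_apply]
  have h1 : (1 = g⁻¹) ↔ (1 = g) := by rw [eq_comm, inv_eq_one, eq_comm]
  have h2 : ∀ u : H, (u = g⁻¹) ↔ (u⁻¹ = g) := fun u => inv_eq_iff_eq_inv.symm
  simp only [h1, h2 y, h2 (x * y)]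

lemma mapDomain_aa {K : Type} [Group K] (π : H →* K) (x y : H) :
    Finsupp.mapDomain π (aa x y) = aa (π x) (π y) := by
  simp only [aa, Finsupp.mapDomain_add, Finsupp.mapDomain_sub, Finsupp.mapDomain_single,
    map_one, map_mul]

end ring

variable {G Q : Type} [Group G] [Group Q] [Fintype Q] [DecidableEq Q]

/-- the representation of the group ring through a finite quotient -/
noncomputable def Psi (π : G →* Q) : MonoidAlgebra ℤ G →ₐ[ℤ] Matrix Q Q ℝ :=
  MonoidAlgebra.lift ℤ (Matrix Q Q ℝ) G ((reg ℝ).comp π)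

lemma Psi_AA (π : G →* Q) (x y : G) : Psi π (AA x y) = 1 - BB (π x) (π y) := by
  simp only [Psi, AA, map_add, map_sub, MonoidAlgebra.lift_single, MonoidHom.comp_apply, map_one,
    map_mul, BB, Matrix.sub_mul, Matrix.one_mul]
  module

lemma Psi_AS (π : G →* Q) (x y : G) : Psi π (AS x y) = (1 - BB (π x) (π y))ᵀ := by
  simp only [Psi, AS, map_add, map_sub, MonoidAlgebra.lift_single, MonoidHom.comp_apply, map_one,
    map_inv, reg_inv, map_mul, BB, Matrix.sub_mul, Matrix.one_mul, transpose_sub, transpose_smul,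
    transpose_one]
  module

lemma trace_Psi (π : G →* Q) (W : MonoidAlgebra ℤ G) (q : Q) :
    (Psi π W * reg ℝ q).trace = ∑ g ∈ W.coeff.support,
      (W.coeff g : ℝ) * (if π g * q = 1 then (Fintype.card Q : ℝ) else 0) := by
  rw [Psi, MonoidAlgebra.lift_apply, Finsupp.sum, Finset.sum_mul, trace_sum]
  refine Finset.sum_congr rfl fun g _ => ?_
  rw [smul_mul_assoc, trace_smul, MonoidHom.comp_apply, ← map_mul, trace_reg, zsmul_eq_mul]

lemma trace_Psi_one (π : G →* Q) (W : MonoidAlgebra ℤ G)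
    (h : ∀ g ∈ W.coeff.support, π g = 1 → g = 1) :
    (Psi π W).trace = Fintype.card Q * (W.coeff 1 : ℝ) := by
  have := trace_Psi π W 1
  rw [map_one, mul_one] at this
  rw [this, Finset.sum_eq_single 1]
  · simp [mul_comm]
  · intro g hg h1
    rw [mul_one, if_neg (fun h' => h1 (h g hg h')), mul_zero]
  · intro h1
    rw [Finsupp.notMem_support_iff.mp h1]; simp

lemma trace_Psi_zero (π : G →* Q) (W : MonoidAlgebra ℤ G) (q : Q)
    (h : ∀ g ∈ W.coeff.support, π g * q ≠ 1) : (Psi π W * reg ℝ q).trace = 0 := by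
  rw [trace_Psi]
  refine Finset.sum_eq_zero fun g hg => ?_
  rw [if_neg (h g hg), mul_zero]

lemma Psi_pow (π : G →* Q) (x y : G) (n : ℕ) :
    Psi π ((AA x y * AS x y) ^ n) =
      ((1 - BB (π x) (π y)) * (1 - BB (π x) (π y))ᵀ) ^ n := by
  rw [map_pow, map_mul, Psi_AA, Psi_AS]

lemma trace_PP {c e : Q} (hc : c ≠ 1) (he : e ≠ 1) (hce : c * e ≠ 1) :
    (PP c e).trace = Fintype.card Q / 4 := by
  rw [PP]
  simp only [Matrix.mul_sub, Matrix.sub_mul, Matrix.mul_one, Matrix.one_mul]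
  rw [trace_smul, trace_sub, trace_sub, trace_sub, trace_one, ← map_mul, trace_reg,
    trace_reg, trace_reg, if_neg hc, if_neg he, if_neg hce]
  simp; ring

lemma trace_Psi_PP (π : G →* Q) (W : MonoidAlgebra ℤ G) {c e : Q}
    (h : ∀ g ∈ W.coeff.support, π g = 1 → g = 1)
    (hc : ∀ g ∈ W.coeff.support, π g * c ≠ 1) (he : ∀ g ∈ W.coeff.support, π g * e ≠ 1)
    (hce : ∀ g ∈ W.coeff.support, π g * (c * e) ≠ 1) :
    (Psi π W * PP c e).trace = Fintype.card Q / 4 * (W.coeff 1 : ℝ) := by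
  rw [PP]
  simp only [Matrix.mul_sub, Matrix.sub_mul, Matrix.mul_one, Matrix.one_mul, Matrix.mul_smul]
  rw [trace_smul, trace_sub, trace_sub, trace_sub, ← map_mul, trace_Psi_one π W h,
    trace_Psi_zero π W c hc, trace_Psi_zero π W e he, trace_Psi_zero π W _ hce]
  simp; ring

end Pool.Agent.P.MP_ae6ac5_an
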